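import Pool.Agent.TTC.StmtsE

/-! # Row SB1 of squad TTC -/

set_option autoImplicit false

namespace Pool.Agent.TTC.H22

open Polynomial

theorem pt_same {R : Type} [CommRing R] {m : ℕ} (i₀ : Fin (m + 1)) (a : Fin m → ℕ) (s : R)
    (b : Fin m → R) : pt i₀ a s b i₀ = s := by
  unfold pt
  rw [Fin.insertNth_apply_same]

theorem pt_succAbove {R : Type} [CommRing R] {m : ℕ} (i₀ : Fin (m + 1)) (a : Fin m → ℕ) (s : R)
    (b : Fin m → R) (j : Fin m) : pt i₀ a s b (i₀.succAbove j) = b j + (a j : R) * s := by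
  unfold pt
  rw [Fin.insertNth_apply_succAbove]

theorem map_pt {R S : Type} [CommRing R] [CommRing S] (ψ : R →+* S) {m : ℕ} (i₀ : Fin (m + 1))
    (a : Fin m → ℕ) (s : R) (b : Fin m → R) (i : Fin (m + 1)) :
    ψ (pt i₀ a s b i) = pt i₀ a (ψ s) (fun j => ψ (b j)) i := by
  rcases Fin.eq_self_or_eq_succAbove i₀ i with rfl | ⟨j, rfl⟩
  · rw [pt_same, pt_same]
  · rw [pt_succAbove, pt_succAbove, map_add, map_mul, map_natCast]

theorem map_sub {R S : Type} [CommRing R] [CommRing S] {m : ℕ}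
    (ψ : (MvPolynomial (Fin m) R)[X] →+* S) (i₀ : Fin (m + 1)) (a : Fin m → ℕ)
    (P : MvPolynomial (Fin (m + 1)) R) :
    ψ (sub i₀ a P) = MvPolynomial.eval₂ (ψ.comp (algebraMap R ((MvPolynomial (Fin m) R)[X])))
      (pt i₀ a (ψ X) fun j => ψ (C (MvPolynomial.X j))) P := by
  unfold sub
  rw [MvPolynomial.aeval_def, MvPolynomial.hom_eval₂]
  congr 1
  funext i
  exact map_pt ψ i₀ a _ _ i

theorem sb1 : Sb1Stmt := by
  refine ⟨fun m i₀ a P b s => ?_, fun m i₀ a P b s => ?_, fun m i₀ a P b s => ?_,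
    fun m P t => ?_, fun m i₀ a R _ t => ?_⟩
  · have h := map_sub ((Polynomial.evalRingHom s).comp
      (Polynomial.mapRingHom (MvPolynomial.eval b))) i₀ a P
    have h1 : ((Polynomial.evalRingHom s).comp
      (Polynomial.mapRingHom (MvPolynomial.eval b))) (sub i₀ a P) =
        ((sub i₀ a P).map (MvPolynomial.eval b)).eval s := rfl
    rw [h1] at h
    rw [h, MvPolynomial.eval_eq, MvPolynomial.eval₂_eq]
    refine Finset.sum_congr rfl fun n _ => ?_
    have h2 : ∀ r : ℤ, (((Polynomial.evalRingHom s).comp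
      (Polynomial.mapRingHom (MvPolynomial.eval b))).comp
        (algebraMap ℤ ((MvPolynomial (Fin m) ℤ)[X]))) r = r := fun r => by
      rw [eq_intCast, Int.cast_id]
    rw [h2]
    congr 1
    refine Finset.prod_congr rfl fun i _ => ?_
    congr 2
    · simp
    · funext j
      simp
  · have h := map_sub (((Polynomial.aeval s : ℤ[X] →ₐ[ℤ] ℂ) : ℤ[X] →+* ℂ).comp
      (Polynomial.mapRingHom (MvPolynomial.eval b))) i₀ a P
    have h1 : (((Polynomial.aeval s : ℤ[X] →ₐ[ℤ] ℂ) : ℤ[X] →+* ℂ).comp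
      (Polynomial.mapRingHom (MvPolynomial.eval b))) (sub i₀ a P) =
        aeval s ((sub i₀ a P).map (MvPolynomial.eval b)) := rfl
    rw [h1] at h
    rw [h, MvPolynomial.aeval_def, MvPolynomial.eval₂_eq, MvPolynomial.eval₂_eq]
    refine Finset.sum_congr rfl fun n _ => ?_
    congr 1
    · rw [eq_intCast, eq_intCast]
    · refine Finset.prod_congr rfl fun i _ => ?_
      congr 2
      · simp
      · funext j
        simp
  · have h := map_sub ((Polynomial.evalRingHom s).comp
      (Polynomial.mapRingHom (MvPolynomial.eval b))) i₀ a P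
    have h1 : ((Polynomial.evalRingHom s).comp
      (Polynomial.mapRingHom (MvPolynomial.eval b))) (sub i₀ a P) = ev b s (sub i₀ a P) := rfl
    rw [h1] at h
    rw [h, MvPolynomial.eval_eq, MvPolynomial.eval₂_eq]
    refine Finset.sum_congr rfl fun n _ => ?_
    congr 1
    · simp [Polynomial.algebraMap_apply, MvPolynomial.algebraMap_eq]
    · refine Finset.prod_congr rfl fun i _ => ?_
      congr 2
      · simp
      · funext j
        simp
  · rw [MvPolynomial.eval_map, MvPolynomial.aeval_def]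
    rfl
  · funext i
    rcases Fin.eq_self_or_eq_succAbove i₀ i with rfl | ⟨j, rfl⟩
    · rw [pt_same]
    · rw [pt_succAbove]
      ring

end Pool.Agent.TTC.H22
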