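import Pool.Agent.TTC.StmtsF

/-! # Row SF6 of squad TTC -/

set_option autoImplicit false

namespace Pool.Agent.TTC.H22

open Polynomial

theorem sext_coeff_six {R : Type} [CommRing R] (a : Fin 7 → R) : (sext a).coeff 6 = a 0 := by
  unfold sext
  simp only [coeff_add, coeff_C_mul, coeff_X_pow, coeff_X, coeff_C]
  norm_num

theorem sext_natDegree_le {R : Type} [CommRing R] (a : Fin 7 → R) :
    (sext a).natDegree ≤ 6 := by
  unfold sext
  compute_degree

theorem sext_natDegree_le' {R : Type} [CommRing R] (a : Fin 7 → R) (h : a 0 = 0) :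
    (sext a).natDegree ≤ 5 := by
  unfold sext
  rw [h, C_0, zero_mul, zero_add]
  compute_degree

theorem sext_natDegree {R : Type} [CommRing R] (a : Fin 7 → R) (h : a 0 ≠ 0) :
    (sext a).natDegree = 6 :=
  le_antisymm (sext_natDegree_le a) (le_natDegree_of_ne_zero (by rwa [sext_coeff_six]))

theorem crit_zero {R : Type} [CommRing R] (a : Fin 7 → R) (h : a 0 = 0) : crit a = 0 := by
  unfold crit
  apply resultant_eq_zero_of_lt_lt
  · refine lt_of_le_of_lt natDegree_map_le ?_
    refine lt_of_le_of_lt (natDegree_derivative_le _) ?_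
    have h1 := sext_natDegree_le' a h
    omega
  · refine lt_of_le_of_lt (natDegree_sub_le _ _) ?_
    rw [natDegree_C, max_eq_right (Nat.zero_le _)]
    refine lt_of_le_of_lt natDegree_map_le ?_
    have h1 := sext_natDegree_le' a h
    omega

theorem d6_zero {R : Type} [CommRing R] (a : Fin 7 → R) (h : a 0 = 0) : d6 a = 0 := by
  unfold d6
  rw [crit_zero a h, coeff_zero]

/-- Row **SF6** -/
theorem sf6 (na6 : Na6Stmt) (cr6 : Cr6Stmt) : Sf6Stmt := by
  constructor
  · intro a ha
    have h0 : a 0 ≠ 0 := fun h => ha (d6_zero a h)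
    have hinj : Function.Injective (Int.castRingHom ℚ) := Int.cast_injective
    have hF : ((sext a).map (Int.castRingHom ℚ)).natDegree = 6 := by
      rw [natDegree_map_eq_of_injective hinj, sext_natDegree a h0]
    refine ⟨h0, hF, ?_⟩
    have hC := na6 ℤ ℂ (Int.castRingHom ℂ) a
    have hd : d6 (fun i => (Int.castRingHom ℂ) (a i)) ≠ 0 := by
      rw [hC.2.1]
      intro h
      exact ha ((Int.cast_eq_zero (α := ℂ)).1 h)
    have h0C : (fun i => (Int.castRingHom ℂ) (a i)) 0 ≠ 0 := by
      intro h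
      exact h0 ((Int.cast_eq_zero (α := ℂ)).1 h)
    have hcr := (cr6 ℂ (fun i => (Int.castRingHom ℂ) (a i)) (by norm_num) h0C).1
    have hno : ¬ ∃ θ : ℂ, (sext (fun i => (Int.castRingHom ℂ) (a i))).eval θ = 0 ∧
        (derivative (sext (fun i => (Int.castRingHom ℂ) (a i)))).eval θ = 0 :=
      fun h => hd (hcr.2 h)
    rw [hC.1] at hno
    intro x hx
    by_contra hu
    have hne : (sext a).map (Int.castRingHom ℚ) ≠ 0 := by
      intro h
      rw [h, natDegree_zero] at hF
      omega
    have hx0 : x ≠ 0 := by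
      rintro rfl
      rw [zero_mul, zero_dvd_iff] at hx
      exact hne hx
    have hdeg : (x.map (algebraMap ℚ ℂ)).degree ≠ 0 := by
      rw [degree_map]
      intro h
      exact hu (isUnit_iff_degree_eq_zero.2 h)
    obtain ⟨θ, hθ'⟩ := IsAlgClosed.exists_root _ hdeg
    have hθ : (x.map (algebraMap ℚ ℂ)).eval θ = 0 := hθ'
    obtain ⟨y, hy⟩ := hx
    have h1 : (sext a).map (Int.castRingHom ℂ) =
        x.map (algebraMap ℚ ℂ) * x.map (algebraMap ℚ ℂ) * y.map (algebraMap ℚ ℂ) := by
      rw [← Polynomial.map_mul, ← Polynomial.map_mul, ← hy, Polynomial.map_map]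
      rfl
    refine hno ⟨θ, ?_, ?_⟩
    · rw [h1, eval_mul, eval_mul, hθ, zero_mul, zero_mul]
    · rw [h1, derivative_mul, derivative_mul, eval_add, eval_mul, eval_mul, eval_add, eval_mul,
        eval_mul, eval_mul, hθ]
      ring
  · intro a h6
    have h0 : a 0 ≠ 0 := by
      intro h
      have := sext_natDegree_le' a h
      omega
    refine ⟨h0, fun hsq hd => ?_⟩
    obtain ⟨θ, h1, h2⟩ := (cr6 ℂ a (by norm_num) h0).1.1 hd
    obtain ⟨g, hg⟩ := dvd_iff_isRoot.2 (show IsRoot (sext a) θ from h1)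
    rw [hg, derivative_mul, eval_add, eval_mul, eval_mul, derivative_X_sub_C, eval_one, one_mul,
      eval_sub, eval_X, eval_C, sub_self, zero_mul, add_zero] at h2
    obtain ⟨g2, hg2⟩ := dvd_iff_isRoot.2 (show IsRoot g θ from h2)
    have h3 : (X - C θ) * (X - C θ) ∣ sext a := by
      refine ⟨g2, ?_⟩
      rw [hg, hg2]
      ring
    exact not_isUnit_X_sub_C θ (hsq _ h3)

end Pool.Agent.TTC.H22
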